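import Pool.Agent.H722R5.KD.Weyl

/-!
Project KD (MP_23b0f8_an): TaskWEYL, uniform equidistribution for `g (X_k (θ))`.
-/

set_option autoImplicit false

open MeasureTheory Filter Topology Set

namespace Pool.Agent.H152R3.KD.WEYL

/-- interpolation function -/
noncomputable def GG (K : ℕ) (w : ℤ → ℂ) (t : ℝ) : ℂ :=
  ∑ h ∈ Finset.Icc (-(K : ℤ)) K, ((max (1 - |t - h|) 0 : ℝ) : ℂ) * w h

noncomputable def LL (K : ℕ) (w : ℤ → ℂ) : ℝ := ∑ h ∈ Finset.Icc (-(K : ℤ)) K, ‖w h‖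

lemma GG_cont (K : ℕ) (w : ℤ → ℂ) : Continuous (GG K w) := by
  unfold GG
  refine continuous_finset_sum _ fun h _ => ?_
  refine Continuous.mul ?_ continuous_const
  refine Complex.continuous_ofReal.comp ?_
  fun_prop

lemma GG_int (K : ℕ) (w : ℤ → ℂ) (h : ℤ) (hh : h ∈ Finset.Icc (-(K : ℤ)) K) :
    GG K w h = w h := by
  unfold GG
  rw [Finset.sum_eq_single_of_mem h hh]
  · simp
  · intro h' _ hne
    have : (1 : ℝ) ≤ |(h : ℝ) - h'| := by
      have : 1 ≤ |h - h'| := Int.one_le_abs (sub_ne_zero.2 hne.symm)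
      exact_mod_cast this
    rw [max_eq_right (by linarith)]
    simp

lemma GG_lip (K : ℕ) (w : ℤ → ℂ) (t t' : ℝ) : ‖GG K w t - GG K w t'‖ ≤ LL K w * |t - t'| := by
  unfold GG LL
  rw [← Finset.sum_sub_distrib, Finset.sum_mul]
  refine (norm_sum_le _ _).trans (Finset.sum_le_sum fun h _ => ?_)
  rw [← sub_mul, norm_mul, mul_comm, ← Complex.ofReal_sub, Complex.norm_real, Real.norm_eq_abs]
  apply mul_le_mul_of_nonneg_left _ (norm_nonneg _)
  refine (abs_max_sub_max_le_abs _ _ _).trans ?_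
  have e : (1 - |t - (h : ℝ)|) - (1 - |t' - (h : ℝ)|) = |t' - (h : ℝ)| - |t - (h : ℝ)| := by ring
  rw [e]
  refine (abs_abs_sub_abs_le_abs_sub _ _).trans (le_of_eq ?_)
  rw [abs_sub_comm]
  congr 1
  ring

lemma hit_mem (D γ x : ℝ) (j : ℤ) : 0 ≤ hit D γ x j ∧ hit D γ x j ≤ 1 := by
  unfold hit
  split_ifs <;> simp

lemma hh_mem (D γ x : ℝ) (k : ℤ) : hh D γ x k ∈ Finset.Icc (-(k.natAbs : ℤ)) k.natAbs := by
  have h1 : 0 ≤ ∑ j ∈ Finset.Ico 0 k, hit D γ x j :=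
    Finset.sum_nonneg fun j _ => (hit_mem D γ x j).1
  have h2 : 0 ≤ ∑ j ∈ Finset.Ico k 0, hit D γ x j :=
    Finset.sum_nonneg fun j _ => (hit_mem D γ x j).1
  have h3 : ∑ j ∈ Finset.Ico 0 k, hit D γ x j ≤ k.toNat := by
    have := Finset.sum_le_card_nsmul (Finset.Ico 0 k) (fun j => hit D γ x j) 1
      fun j _ => (hit_mem D γ x j).2
    rw [Int.card_Ico] at this
    simpa using this
  have h4 : ∑ j ∈ Finset.Ico k 0, hit D γ x j ≤ (-k).toNat := by
    have := Finset.sum_le_card_nsmul (Finset.Ico k 0) (fun j => hit D γ x j) 1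
      fun j _ => (hit_mem D γ x j).2
    rw [Int.card_Ico] at this
    simpa using this
  rw [Finset.mem_Icc]
  unfold hh
  omega

/-- continuous approximation of the number of hits -/
noncomputable def ss (D γ δ : ℝ) (k : ℤ) (θ : ℝ) : ℝ :=
  ∑ j ∈ Finset.Ico 0 k, psi D δ (θ + j * γ) - ∑ j ∈ Finset.Ico k 0, psi D δ (θ + j * γ)

noncomputable def ff (D γ δ : ℝ) (k : ℤ) (θ : ℝ) : ℝ :=
  ∑ j ∈ Finset.Ico 0 k, chi D δ (θ + j * γ) + ∑ j ∈ Finset.Ico k 0, chi D δ (θ + j * γ)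

lemma ss_cont (D γ δ : ℝ) (k : ℤ) : Continuous (ss D γ δ k) := by
  unfold ss
  refine Continuous.sub ?_ ?_ <;>
    exact continuous_finset_sum _ fun j _ => (psi_cont D δ).comp (by fun_prop)

lemma ff_cont (D γ δ : ℝ) (k : ℤ) : Continuous (ff D γ δ k) := by
  unfold ff
  refine Continuous.add ?_ ?_ <;>
    exact continuous_finset_sum _ fun j _ => (chi_cont D δ).comp (by fun_prop)

lemma ss_per (D γ δ : ℝ) (k : ℤ) : Function.Periodic (ss D γ δ k) 1 := by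
  intro x
  unfold ss
  congr 1 <;>
    (apply Finset.sum_congr rfl
     intro j _
     rw [add_right_comm, psi_per D δ])

lemma ff_per (D γ δ : ℝ) (k : ℤ) : Function.Periodic (ff D γ δ k) 1 := by
  intro x
  unfold ff
  congr 1 <;>
    (apply Finset.sum_congr rfl
     intro j _
     rw [add_right_comm, chi_per D δ])

lemma hit_close {D γ δ : ℝ} (h0 : 0 < D) (h1 : D < 1) (hδ : 0 < δ) (θ : ℝ) (j : ℤ) :
    |(hit D γ θ j : ℝ) - psi D δ (θ + j * γ)| ≤ chi D δ (θ + j * γ) := by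
  have := psi_chi (x := θ + j * γ) h0 h1 hδ
  have e : (hit D γ θ j : ℝ) = if Int.fract (θ + j * γ) < D then (1 : ℝ) else 0 := by
    unfold hit
    split_ifs <;> simp
  rw [e]
  exact this

lemma hh_close {D γ δ : ℝ} (h0 : 0 < D) (h1 : D < 1) (hδ : 0 < δ) (k : ℤ) (θ : ℝ) :
    |(hh D γ θ k : ℝ) - ss D γ δ k θ| ≤ ff D γ δ k θ := by
  unfold hh ss ff
  push_cast
  have e : (∑ j ∈ Finset.Ico 0 k, (hit D γ θ j : ℝ) - ∑ j ∈ Finset.Ico k 0, (hit D γ θ j : ℝ)) -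
      (∑ j ∈ Finset.Ico 0 k, psi D δ (θ + j * γ) - ∑ j ∈ Finset.Ico k 0, psi D δ (θ + j * γ)) =
      ∑ j ∈ Finset.Ico 0 k, ((hit D γ θ j : ℝ) - psi D δ (θ + j * γ)) -
      ∑ j ∈ Finset.Ico k 0, ((hit D γ θ j : ℝ) - psi D δ (θ + j * γ)) := by
    rw [Finset.sum_sub_distrib, Finset.sum_sub_distrib]
    ring
  rw [e]
  refine (abs_sub _ _).trans ?_
  apply add_le_add
  · exact (Finset.abs_sum_le_sum_abs _ _).trans
      (Finset.sum_le_sum fun j _ => hit_close h0 h1 hδ θ j)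
  · exact (Finset.abs_sum_le_sum_abs _ _).trans
      (Finset.sum_le_sum fun j _ => hit_close h0 h1 hδ θ j)

lemma ff_int {D γ δ : ℝ} (h0 : 0 < D) (h1 : D < 1) (hδ : 0 < δ) (k : ℤ) :
    ∫ θ in Ico (0 : ℝ) 1, ff D γ δ k θ ≤ k.natAbs * (6 * δ) := by
  have hi : ∀ j : ℤ, IntegrableOn (fun θ => chi D δ (θ + j * γ)) (Ico (0 : ℝ) 1) := by
    intro j
    have hc : Continuous (fun θ : ℝ => chi D δ (θ + j * γ)) := (chi_cont D δ).comp (by fun_prop)
    exact (hc.integrableOn_Icc (a := 0) (b := 1)).mono_set Ico_subset_Icc_self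
  have hb : ∀ j : ℤ, ∫ θ in Ico (0 : ℝ) 1, chi D δ (θ + j * γ) ≤ 6 * δ := by
    intro j
    rw [int_shift (chi D δ) (chi_per D δ)]
    exact chi_int h0 h1 hδ
  unfold ff
  rw [integral_add (integrable_finset_sum _ fun j _ => hi j)
    (integrable_finset_sum _ fun j _ => hi j), integral_finset_sum _ fun j _ => hi j,
    integral_finset_sum _ fun j _ => hi j]
  have h3 := Finset.sum_le_card_nsmul (Finset.Ico 0 k)
    (fun j : ℤ => ∫ θ in Ico (0 : ℝ) 1, chi D δ (θ + j * γ)) (6 * δ) fun j _ => hb j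
  have h4 := Finset.sum_le_card_nsmul (Finset.Ico k 0)
    (fun j : ℤ => ∫ θ in Ico (0 : ℝ) 1, chi D δ (θ + j * γ)) (6 * δ) fun j _ => hb j
  rw [Int.card_Ico, nsmul_eq_mul] at h3 h4
  refine (add_le_add h3 h4).trans (le_of_eq ?_)
  rw [← add_mul, ← Nat.cast_add]
  congr 2
  omega

theorem taskWEYL : TaskWEYL := by
  intro hBAS a b D γ hH g hg k ε hε
  obtain ⟨h0, h1, hirr, ha0, hab0⟩ := hH
  set K : ℕ := k.natAbs with hK
  set w : ℤ → ℂ := fun h => g (a * k + b * h) with hw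
  set L : ℝ := LL K w with hL
  have hL0 : 0 ≤ L := Finset.sum_nonneg fun h _ => norm_nonneg _
  set F : ℝ → ℂ := fun θ => g (XX a b D γ θ k) with hF
  have hFG : ∀ θ, F θ = GG K w (hh D γ θ k) := by
    intro θ
    rw [GG_int K w _ (hh_mem D γ θ k)]
    rfl
  have hFb : ∀ θ, ‖F θ‖ ≤ L := by
    intro θ
    rw [hFG, GG_int K w _ (hh_mem D γ θ k)]
    exact Finset.single_le_sum (f := fun h => ‖w h‖) (fun h _ => norm_nonneg _) (hh_mem D γ θ k)
  have hFm : Measurable F := hg.measurable.comp ((hBAS a b D γ 0 ha0 hab0).2.2.2.2.2.2 k)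
  have hFi : IntegrableOn F (Ico (0 : ℝ) 1) := by
    refine Measure.integrableOn_of_bounded (M := L) (by simp) hFm.aestronglyMeasurable ?_
    exact Eventually.of_forall hFb
  set δ : ℝ := ε / (24 * (L + 1) * (K + 1)) with hδ
  have hδ0 : 0 < δ := by positivity
  set u : ℝ → ℂ := fun θ => GG K w (ss D γ δ k θ) with hu
  have huc : Continuous u := (GG_cont K w).comp (ss_cont D γ δ k)
  have hup : Function.Periodic u 1 := by
    intro x
    simp only [hu]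
    rw [ss_per D γ δ k x]
  have hFu : ∀ θ, ‖F θ - u θ‖ ≤ L * ff D γ δ k θ := by
    intro θ
    rw [hFG]
    exact (GG_lip K w _ _).trans (mul_le_mul_of_nonneg_left (hh_close h0 h1 hδ0 k θ) hL0)
  set X : ℝ → ℝ := ff D γ δ k with hX
  have hXc : Continuous X := ff_cont D γ δ k
  have hXi : IntegrableOn X (Ico (0 : ℝ) 1) :=
    (hXc.integrableOn_Icc (a := 0) (b := 1)).mono_set Ico_subset_Icc_self
  have hui : IntegrableOn u (Ico (0 : ℝ) 1) :=
    (huc.integrableOn_Icc (a := 0) (b := 1)).mono_set Ico_subset_Icc_self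
  obtain ⟨M1, hM1⟩ := weylR hirr u huc hup (ε / 4) (by positivity)
  obtain ⟨M2, hM2⟩ := weylR hirr (fun θ => (X θ : ℂ)) (Complex.continuous_ofReal.comp hXc)
    (by intro x; simp only [hX]; rw [ff_per D γ δ k x]) (ε / (4 * (L + 1))) (by positivity)
  have hIX : ∫ θ in Ico (0 : ℝ) 1, X θ ≤ K * (6 * δ) := ff_int h0 h1 hδ0 k
  have hLI : L * (K * (6 * δ)) ≤ ε / 4 := by
    have e : L * (K * (6 * δ)) = (ε / 4) * ((L / (L + 1)) * ((K : ℝ) / (K + 1))) := by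
      rw [hδ]
      field_simp
      ring
    rw [e]
    have a1 : L / (L + 1) ≤ 1 := by
      rw [div_le_one (by positivity)]
      linarith
    have a2 : (K : ℝ) / (K + 1) ≤ 1 := by
      rw [div_le_one (by positivity)]
      linarith
    have a3 : (L / (L + 1)) * ((K : ℝ) / (K + 1)) ≤ 1 :=
      mul_le_one₀ a1 (by positivity) a2
    nlinarith [mul_le_mul_of_nonneg_left a3 (show 0 ≤ ε / 4 by positivity)]
  have hLe : L * (ε / (4 * (L + 1))) ≤ ε / 4 := by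
    have e : L * (ε / (4 * (L + 1))) = (ε / 4) * (L / (L + 1)) := by
      field_simp
    rw [e]
    have a1 : L / (L + 1) ≤ 1 := by
      rw [div_le_one (by positivity)]
      linarith
    nlinarith [mul_le_mul_of_nonneg_left a1 (show 0 ≤ ε / 4 by positivity)]
  refine ⟨max M1 M2, fun M hM x => ?_⟩
  have k1 := hM1 M (le_trans (le_max_left _ _) hM) x
  have k2 := hM2 M (le_trans (le_max_right _ _) hM) x
  have hMr : (0 : ℝ) ≤ M := by positivity
  have k3 : ∑ j ∈ Finset.range M, X (x + j * γ) ≤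
      M * (∫ θ in Ico (0 : ℝ) 1, X θ) + ε / (4 * (L + 1)) * M := by
    have e : (∑ j ∈ Finset.range M, ((X (x + j * γ) : ℝ) : ℂ)) -
        M * ∫ θ in Ico (0 : ℝ) 1, ((X θ : ℝ) : ℂ) =
        ((∑ j ∈ Finset.range M, X (x + j * γ) - M * ∫ θ in Ico (0 : ℝ) 1, X θ : ℝ) : ℂ) := by
      have hio : ∫ θ in Ico (0 : ℝ) 1, ((X θ : ℝ) : ℂ) =
          ((∫ θ in Ico (0 : ℝ) 1, X θ : ℝ) : ℂ) := integral_ofReal
      rw [hio, Complex.ofReal_sub, Complex.ofReal_sum, Complex.ofReal_mul, Complex.ofReal_natCast]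
    have k2' : ‖(∑ j ∈ Finset.range M, ((X (x + j * γ) : ℝ) : ℂ)) -
        M * ∫ θ in Ico (0 : ℝ) 1, ((X θ : ℝ) : ℂ)‖ ≤ ε / (4 * (L + 1)) * M := k2
    rw [e, Complex.norm_real, Real.norm_eq_abs] at k2'
    have := (abs_le.1 k2').2
    linarith
  have k4 : ‖∑ j ∈ Finset.range M, (F (x + j * γ) - u (x + j * γ))‖ ≤
      L * ∑ j ∈ Finset.range M, X (x + j * γ) := by
    rw [Finset.mul_sum]
    exact (norm_sum_le _ _).trans (Finset.sum_le_sum fun j _ => hFu _)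
  have k5 : ‖(∫ θ in Ico (0 : ℝ) 1, u θ) - ∫ θ in Ico (0 : ℝ) 1, F θ‖ ≤
      L * ∫ θ in Ico (0 : ℝ) 1, X θ := by
    rw [← integral_sub hui hFi, ← integral_const_mul]
    refine norm_integral_le_of_norm_le (hXi.const_mul L) (Eventually.of_forall fun θ => ?_)
    rw [norm_sub_rev]
    exact hFu θ
  have e : ∑ j ∈ Finset.range M, F (x + j * γ) - M * ∫ θ in Ico (0 : ℝ) 1, F θ =
      ∑ j ∈ Finset.range M, (F (x + j * γ) - u (x + j * γ)) +
      (∑ j ∈ Finset.range M, u (x + j * γ) - M * ∫ θ in Ico (0 : ℝ) 1, u θ) +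
      M * ((∫ θ in Ico (0 : ℝ) 1, u θ) - ∫ θ in Ico (0 : ℝ) 1, F θ) := by
    rw [Finset.sum_sub_distrib]
    ring
  change ‖∑ j ∈ Finset.range M, F (x + j * γ) - M * ∫ θ in Ico (0 : ℝ) 1, F θ‖ ≤ ε * M
  rw [e]
  refine norm_add₃_le.trans ?_
  rw [norm_mul, Complex.norm_natCast]
  have k6 := mul_le_mul_of_nonneg_left k5 hMr
  have k7 := mul_le_mul_of_nonneg_left k3 hL0
  have k8 : L * ∫ θ in Ico (0 : ℝ) 1, X θ ≤ ε / 4 :=
    (mul_le_mul_of_nonneg_left hIX hL0).trans hLI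
  have k9 := mul_le_mul_of_nonneg_left k8 hMr
  have k10 := mul_le_mul_of_nonneg_right hLe hMr
  nlinarith [k1, k4, k6, k7, k9, k10]

end Pool.Agent.H152R3.KD.WEYL
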