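import Pool.Agent.H152R3.KD.Stmts
import Pool.Agent.H705R2.Weyl

/-!
Project KD (MP_23b0f8_an): TaskWEYL, uniform equidistribution for `g (X_k (θ))`.
-/

set_option autoImplicit false

open MeasureTheory Filter Topology Set

namespace Pool.Agent.H152R3.KD.WEYL

open Pool.Agent.H705R2

/-- uniform convergence of the averages along the orbits of a rotation -/
def UW (a : Circ) (f : Circ → ℂ) : Prop :=
  ∀ ε : ℝ, 0 < ε → ∃ M₀ : ℕ, ∀ M : ℕ, M₀ ≤ M → ∀ s : Circ, ‖avg a s f M - ∫ x : Circ, f x‖ ≤ ε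

lemma uw_fourier {a : Circ} (ha : addOrderOf a = 0) {n : ℤ} (hn : n ≠ 0) :
    UW a (fun x => (fourier n x : ℂ)) := by
  intro ε hε
  have hz := exists_fourier_ne_one ha hn
  set z : ℂ := fourier n a with hzdef
  have hnorm : ‖z‖ = 1 := by
    rw [hzdef, fourier_apply]; exact Circle.norm_coe _
  have hterm : ∀ (s : Circ) (m : ℕ), (fourier n (s + m • a) : ℂ) = fourier n s * z ^ m := by
    intro s m
    rw [hzdef]
    simp only [fourier_apply]
    rw [smul_add, AddCircle.toCircle_add]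
    have : n • m • a = m • n • a := by rw [smul_comm]
    rw [this, AddCircle.toCircle_nsmul]
    simp
  have hsum : ∀ (s : Circ) (M : ℕ),
      ‖∑ m ∈ Finset.range M, (fourier n (s + m • a) : ℂ)‖ ≤ 2 / ‖z - 1‖ := by
    intro s M
    simp_rw [hterm]
    rw [← Finset.mul_sum, geom_sum_eq hz, norm_mul, norm_div]
    have h1 : ‖(fourier n s : ℂ)‖ = 1 := by rw [fourier_apply]; exact Circle.norm_coe _
    rw [h1, one_mul]
    gcongr
    calc ‖z ^ M - 1‖ ≤ ‖z ^ M‖ + ‖(1 : ℂ)‖ := norm_sub_le _ _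
      _ = 2 := by rw [norm_pow, hnorm]; norm_num
  have hlim : Tendsto (fun M : ℕ => (2 / ‖z - 1‖) / (M : ℝ)) atTop (𝓝 0) :=
    tendsto_const_div_atTop_nhds_zero_nat _
  obtain ⟨M₀, hM₀⟩ := eventually_atTop.1 (hlim.eventually (gt_mem_nhds hε))
  refine ⟨M₀, fun M hM s => ?_⟩
  rw [integral_fourier_eq_zero hn, sub_zero]
  unfold avg
  rw [norm_div, Complex.norm_natCast]
  exact le_trans (div_le_div_of_nonneg_right (hsum s M) (by positivity)) (hM₀ M hM).le

lemma intg (f : C(Circ, ℂ)) : Integrable (fun x => f x) (volume : Measure Circ) :=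
  f.continuous.integrable_of_hasCompactSupport (HasCompactSupport.of_compactSpace _)

lemma uw_span {a : Circ} (ha : addOrderOf a = 0) (f : C(Circ, ℂ))
    (hf : f ∈ (Submodule.span ℂ (range <| @fourier 1))) : UW a f := by
  induction hf using Submodule.span_induction with
  | mem f hf =>
    obtain ⟨n, rfl⟩ := hf
    by_cases hn : n = 0
    · subst hn
      intro ε hε
      refine ⟨1, fun M hM s => ?_⟩
      have h1 : avg a s (fun x => (fourier 0 x : ℂ)) M = 1 := by
        unfold avg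
        simp only [fourier_zero, Finset.sum_const, Finset.card_range, nsmul_eq_mul, mul_one]
        have : (M : ℂ) ≠ 0 := by
          have : M ≠ 0 := by omega
          exact_mod_cast this
        field_simp
      have hint : ∫ x : Circ, (fourier 0 x : ℂ) = 1 := by
        simp [fourier_zero, Measure.real]
      rw [h1, hint, sub_self, norm_zero]
      exact hε.le
    · exact uw_fourier ha hn
  | zero =>
    intro ε hε
    refine ⟨0, fun M hM s => ?_⟩
    simp [avg, hε.le]
  | add f g hf hg ihf ihg =>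
    intro ε hε
    obtain ⟨M1, h1⟩ := ihf (ε / 2) (by positivity)
    obtain ⟨M2, h2⟩ := ihg (ε / 2) (by positivity)
    refine ⟨max M1 M2, fun M hM s => ?_⟩
    have hi : ∫ x : Circ, (f + g) x = (∫ x : Circ, f x) + ∫ x : Circ, g x := by
      have := integral_add (intg f) (intg g)
      simpa using this
    have ha : avg a s (f + g) M = avg a s f M + avg a s g M := by
      unfold avg
      rw [← add_div, ← Finset.sum_add_distrib]; rfl
    have k1 := h1 M (le_trans (le_max_left _ _) hM) s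
    have k2 := h2 M (le_trans (le_max_right _ _) hM) s
    have hi' : ∫ x : Circ, (⇑(f + g)) x = (∫ x : Circ, f x) + ∫ x : Circ, g x := hi
    have ha' : avg a s (⇑(f + g)) M = avg a s f M + avg a s g M := ha
    rw [ha', hi']
    calc ‖avg a s f M + avg a s g M - ((∫ x : Circ, f x) + ∫ x : Circ, g x)‖
        = ‖(avg a s f M - ∫ x : Circ, f x) + (avg a s g M - ∫ x : Circ, g x)‖ := by
          congr 1; ring
      _ ≤ _ := norm_add_le _ _
      _ ≤ ε := by linarith
  | smul c f hf ihf =>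
    intro ε hε
    obtain ⟨M1, h1⟩ := ihf (ε / (‖c‖ + 1)) (by positivity)
    refine ⟨M1, fun M hM s => ?_⟩
    have hi : ∫ x : Circ, (⇑(c • f)) x = c * (∫ x : Circ, f x) := by
      simp [integral_const_mul]
    have ha : avg a s (⇑(c • f)) M = c * avg a s f M := by
      unfold avg
      simp only [ContinuousMap.coe_smul, Pi.smul_apply, smul_eq_mul]
      rw [← Finset.mul_sum, mul_div_assoc]
    rw [ha, hi, ← mul_sub, norm_mul]
    calc ‖c‖ * ‖avg a s f M - ∫ x : Circ, f x‖ ≤ ‖c‖ * (ε / (‖c‖ + 1)) :=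
          mul_le_mul_of_nonneg_left (h1 M hM s) (norm_nonneg _)
      _ ≤ (‖c‖ + 1) * (ε / (‖c‖ + 1)) := by
          apply mul_le_mul_of_nonneg_right _ (by positivity)
          linarith
      _ = ε := by
          have : ‖c‖ + 1 ≠ 0 := by positivity
          field_simp

theorem uw {a : Circ} (ha : addOrderOf a = 0) (h : C(Circ, ℂ)) : UW a h := by
  intro ε hε
  have hcl : h ∈ (Submodule.span ℂ (range <| @fourier 1)).topologicalClosure := by
    rw [span_fourier_closure_eq_top]; trivial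
  rw [← SetLike.mem_coe, Submodule.topologicalClosure_coe, Metric.mem_closure_iff] at hcl
  obtain ⟨f, hf, hfd⟩ := hcl (ε / 3) (by positivity)
  obtain ⟨N, hN⟩ := uw_span ha f hf (ε / 3) (by positivity)
  refine ⟨N, fun M hM s => ?_⟩
  have h1 := hN M hM s
  have h2 : ‖avg a s h M - avg a s f M‖ ≤ ‖h - f‖ := avg_norm_sub_le a s h f M
  have h3 : ‖(∫ x : Circ, f x) - ∫ x : Circ, h x‖ ≤ ‖h - f‖ := by
    rw [← integral_sub (intg f) (intg h)]
    calc ‖∫ x : Circ, (f x - h x)‖ ≤ ‖h - f‖ * (volume : Measure Circ).real univ := by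
          apply norm_integral_le_of_norm_le_const
          filter_upwards with x
          rw [norm_sub_rev]
          exact (h - f).norm_coe_le_norm x
      _ = ‖h - f‖ := by simp [Measure.real]
  have h4 : ‖h - f‖ < ε / 3 := by rw [← dist_eq_norm]; exact hfd
  calc ‖avg a s h M - ∫ x : Circ, h x‖
      = ‖(avg a s h M - avg a s f M) + (avg a s f M - ∫ x : Circ, f x) +
        ((∫ x : Circ, f x) - ∫ x : Circ, h x)‖ := by congr 1; ring
    _ ≤ _ := norm_add₃_le
    _ ≤ ε := by linarith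

lemma order_zero {γ : ℝ} (hγ : Irrational γ) : addOrderOf ((γ : ℝ) : Circ) = 0 := by
  rw [addOrderOf_eq_zero_iff, isOfFinAddOrder_iff_nsmul_eq_zero]
  rintro ⟨n, hn, h⟩
  rw [← AddCircle.coe_nsmul, AddCircle.coe_eq_zero_iff] at h
  obtain ⟨m, hm⟩ := h
  rw [zsmul_eq_mul, mul_one, nsmul_eq_mul] at hm
  apply hγ
  refine ⟨(m : ℚ) / n, ?_⟩
  push_cast
  have : (n : ℝ) ≠ 0 := by exact_mod_cast hn.ne'
  rw [div_eq_iff this, hm]
  ring

/-- Weyl's theorem on the line, uniform in the starting point -/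
theorem weylR {γ : ℝ} (hγ : Irrational γ) (u : ℝ → ℂ) (hu : Continuous u)
    (hp : Function.Periodic u 1) (ε : ℝ) (hε : 0 < ε) : ∃ M₀ : ℕ, ∀ M : ℕ, M₀ ≤ M → ∀ x : ℝ,
      ‖∑ j ∈ Finset.range M, u (x + j * γ) - M * ∫ θ in Ico (0 : ℝ) 1, u θ‖ ≤ ε * M := by
  have hc : Continuous (hp.lift : Circ → ℂ) := by
    refine continuous_coinduced_dom.2 ?_
    exact hu
  obtain ⟨M₀, hM₀⟩ := uw (order_zero hγ) ⟨hp.lift, hc⟩ ε hε
  refine ⟨M₀, fun M hM x => ?_⟩
  have h := hM₀ M hM (x : Circ)
  rcases Nat.eq_zero_or_pos M with rfl | hM0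
  · simp
  have hMc : (M : ℂ) ≠ 0 := by exact_mod_cast hM0.ne'
  have hMr : (0 : ℝ) < M := by exact_mod_cast hM0
  have hint : ∫ x : Circ, hp.lift x = ∫ θ in Ico (0 : ℝ) 1, u θ := by
    rw [integral_Ico_eq_integral_Ioc, ← intervalIntegral.integral_of_le zero_le_one]
    have := AddCircle.intervalIntegral_preimage (1 : ℝ) 0 (hp.lift : Circ → ℂ)
    rw [zero_add] at this
    rw [← this]
    rfl
  have havg : avg ((γ : ℝ) : Circ) (x : Circ) hp.lift M =
      (∑ j ∈ Finset.range M, u (x + j * γ)) / M := by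
    unfold avg
    congr 1
    apply Finset.sum_congr rfl
    intro j _
    have : ((x : ℝ) : Circ) + j • ((γ : ℝ) : Circ) = ((x + j * γ : ℝ) : Circ) := by
      rw [← AddCircle.coe_nsmul, ← AddCircle.coe_add, nsmul_eq_mul]
    rw [this]
    rfl
  have h' : ‖avg ((γ : ℝ) : Circ) (x : Circ) hp.lift M - ∫ x : Circ, hp.lift x‖ ≤ ε := h
  rw [havg, hint] at h'
  have e : ∑ j ∈ Finset.range M, u (x + j * γ) - M * ∫ θ in Ico (0 : ℝ) 1, u θ =
      M * ((∑ j ∈ Finset.range M, u (x + j * γ)) / M - ∫ θ in Ico (0 : ℝ) 1, u θ) := by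
    rw [mul_sub, mul_div_assoc', mul_div_cancel_left₀ _ hMc]
  rw [e, norm_mul, Complex.norm_natCast, mul_comm]
  exact mul_le_mul_of_nonneg_right h' hMr.le

/-- distance to `D / 2` modulo 1 -/
noncomputable def tt (D x : ℝ) : ℝ := ‖((x - D / 2 : ℝ) : Circ)‖

lemma tt_cont (D : ℝ) : Continuous (tt D) := by
  unfold tt
  exact continuous_norm.comp ((AddCircle.continuous_mk' (1:ℝ)).comp (by fun_prop))

lemma tt_per (D : ℝ) : Function.Periodic (tt D) 1 := by
  intro x
  unfold tt
  have : x + 1 - D / 2 = (x - D / 2) + 1 := by ring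
  rw [this, AddCircle.coe_add_period]

lemma tt_eq (D x : ℝ) : tt D x = |x - D / 2 - round (x - D / 2)| := UnitAddCircle.norm_eq

lemma tt_fract {D x : ℝ} (h0 : 0 < D) (h1 : D < 1) :
    (tt D x = |Int.fract x - D / 2| ∧ |Int.fract x - D / 2| ≤ 1 / 2) ∨
    (tt D x = 1 - Int.fract x + D / 2 ∧ 1 / 2 ≤ Int.fract x - D / 2) := by
  have hf0 := Int.fract_nonneg x
  have hf1 := Int.fract_lt_one x
  obtain ⟨m, hm⟩ : ∃ m : ℤ, m = round (x - D / 2) - ⌊x⌋ := ⟨_, rfl⟩
  have hx : x = Int.fract x + ⌊x⌋ := (Int.fract_add_floor x).symm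
  have ht : tt D x = |Int.fract x - D / 2 - m| := by
    rw [tt_eq, hm]
    congr 1
    push_cast
    unfold Int.fract
    ring
  have hle : |Int.fract x - D / 2 - m| ≤ 1 / 2 := by
    rw [← ht, tt_eq]
    exact abs_sub_round _
  have h2 := abs_le.1 hle
  have hm1 : m < 2 := by
    have : (m : ℝ) < 2 := by linarith
    exact_mod_cast this
  have hm0 : -1 < m := by
    have : (-1 : ℝ) < m := by linarith
    exact_mod_cast this
  have hm' : m = 0 ∨ m = 1 := by omega
  rcases hm' with h | h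
  · left
    rw [h] at ht hle
    rw [ht]
    simp only [Int.cast_zero, sub_zero] at hle ⊢
    exact ⟨trivial, hle⟩
  · right
    rw [h] at ht h2
    push_cast at ht h2
    rw [ht]
    refine ⟨?_, by linarith⟩
    rw [abs_of_nonpos (by linarith)]
    ring

lemma hit_cases {D x : ℝ} (h0 : 0 < D) (h1 : D < 1) :
    (tt D x < D / 2 → Int.fract x < D) ∧ (D / 2 < tt D x → ¬ Int.fract x < D) := by
  have hf0 := Int.fract_nonneg x
  have hf1 := Int.fract_lt_one x
  rcases tt_fract (x := x) h0 h1 with ⟨h, h'⟩ | ⟨h, h'⟩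
  · rw [h]
    constructor
    · intro h3
      linarith [(abs_lt.1 h3).2]
    · intro h3 h4
      rcases lt_abs.1 h3 with h5 | h5 <;> linarith
  · rw [h]
    constructor
    · intro h3; linarith
    · intro h3 h4; linarith

noncomputable def psi (D δ x : ℝ) : ℝ := max 0 (min 1 ((D / 2 - tt D x) / δ))
noncomputable def chi (D δ x : ℝ) : ℝ := max 0 (1 - |tt D x - D / 2| / δ)

lemma psi_cont (D δ : ℝ) : Continuous (psi D δ) := by
  unfold psi
  have := tt_cont D
  fun_prop

lemma chi_cont (D δ : ℝ) : Continuous (chi D δ) := by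
  unfold chi
  have := tt_cont D
  fun_prop

lemma psi_per (D δ : ℝ) : Function.Periodic (psi D δ) 1 := by
  intro x
  unfold psi
  rw [tt_per D x]

lemma chi_per (D δ : ℝ) : Function.Periodic (chi D δ) 1 := by
  intro x
  unfold chi
  rw [tt_per D x]

lemma chi_nonneg (D δ x : ℝ) : 0 ≤ chi D δ x := le_max_left _ _

lemma psi_chi {D δ x : ℝ} (h0 : 0 < D) (h1 : D < 1) (hδ : 0 < δ) :
    |(if Int.fract x < D then (1 : ℝ) else 0) - psi D δ x| ≤ chi D δ x := by
  have hc := hit_cases (x := x) h0 h1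
  rcases lt_trichotomy (tt D x) (D / 2) with h | h | h
  · rw [if_pos (hc.1 h)]
    unfold psi chi
    have hq : 0 < (D / 2 - tt D x) / δ := div_pos (by linarith) hδ
    rw [abs_of_neg (a := tt D x - D / 2) (by linarith), neg_sub]
    set q := (D / 2 - tt D x) / δ
    rw [max_eq_right (le_min zero_le_one hq.le)]
    rcases le_total 1 q with h2 | h2
    · rw [min_eq_left h2, sub_self, abs_zero]
      exact le_max_left _ _
    · rw [min_eq_right h2, abs_of_nonneg (by linarith)]
      exact le_max_right _ _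
  · unfold psi chi
    rw [h, sub_self, zero_div, abs_zero, zero_div, min_eq_right zero_le_one, max_self, sub_zero,
      sub_zero, max_eq_right zero_le_one]
    split_ifs <;> norm_num
  · rw [if_neg (hc.2 h)]
    have hq : (D / 2 - tt D x) / δ ≤ 0 := div_nonpos_of_nonpos_of_nonneg (by linarith) hδ.le
    have : psi D δ x = 0 := by
      unfold psi
      exact max_eq_left ((min_le_right _ _).trans hq)
    rw [this, sub_zero, abs_zero]
    exact chi_nonneg _ _ _

lemma chi_le_one {D δ x : ℝ} (hδ : 0 < δ) : chi D δ x ≤ 1 := by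
  unfold chi
  apply max_le zero_le_one
  have : 0 ≤ |tt D x - D / 2| / δ := by positivity
  linarith

lemma chi_int {D δ : ℝ} (h0 : 0 < D) (h1 : D < 1) (hδ : 0 < δ) :
    ∫ θ in Ico (0 : ℝ) 1, chi D δ θ ≤ 6 * δ := by
  set S : Set ℝ := Ioo (-δ) δ ∪ Ioo (D - δ) (D + δ) ∪ Ioo (1 - δ) (1 + δ) with hS
  have hSm : MeasurableSet S := (measurableSet_Ioo.union measurableSet_Ioo).union measurableSet_Ioo
  have hpt : ∀ θ ∈ Ico (0 : ℝ) 1, chi D δ θ ≤ S.indicator (1 : ℝ → ℝ) θ := by
    intro θ hθ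
    by_cases hm : θ ∈ S
    · rw [indicator_of_mem hm]
      exact chi_le_one hδ
    · rw [indicator_of_notMem hm]
      have hfr : Int.fract θ = θ := Int.fract_eq_self.2 hθ
      unfold chi
      apply max_le le_rfl
      rw [sub_nonpos, one_le_div hδ]
      by_contra hlt
      push Not at hlt
      apply hm
      have h3 := abs_lt.1 hlt
      rcases tt_fract (x := θ) h0 h1 with ⟨h, h'⟩ | ⟨h, h'⟩
      · rw [hfr] at h
        rw [h] at h3
        rcases abs_cases (θ - D / 2) with h4 | h4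
        · exact Or.inl (Or.inr ⟨by linarith, by linarith⟩)
        · exact Or.inl (Or.inl ⟨by linarith, by linarith⟩)
      · rw [hfr] at h
        rw [h] at h3
        exact Or.inr ⟨by linarith [hθ.2], by linarith [hθ.2]⟩
  have hi1 : IntegrableOn (chi D δ) (Ico (0 : ℝ) 1) :=
    ((chi_cont D δ).integrableOn_Icc (a := 0) (b := 1)).mono_set Ico_subset_Icc_self
  have hi2 : IntegrableOn (S.indicator (1 : ℝ → ℝ)) (Ico (0 : ℝ) 1) := by
    have : IntegrableOn (1 : ℝ → ℝ) (Ico (0 : ℝ) 1) :=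
      (continuous_one.integrableOn_Icc (a := 0) (b := 1)).mono_set Ico_subset_Icc_self
    exact this.indicator hSm
  have hfin : volume (Ioo (-δ) δ ∪ Ioo (D - δ) (D + δ)) ≠ ⊤ := by
    refine ne_top_of_le_ne_top ?_ (measure_union_le _ _)
    simp
  have hfin2 : volume S ≠ ⊤ := by
    refine ne_top_of_le_ne_top ?_ (measure_union_le _ _)
    simp only [ne_eq, ENNReal.add_eq_top, hfin, false_or]
    simp
  calc ∫ θ in Ico (0 : ℝ) 1, chi D δ θ ≤ ∫ θ in Ico (0 : ℝ) 1, S.indicator (1 : ℝ → ℝ) θ :=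
        setIntegral_mono_on hi1 hi2 measurableSet_Ico hpt
    _ = (volume.restrict (Ico (0 : ℝ) 1)).real S := integral_indicator_one hSm
    _ ≤ volume.real S := by
        rw [measureReal_restrict_apply hSm]
        exact measureReal_mono inter_subset_left hfin2
    _ ≤ volume.real (Ioo (-δ) δ ∪ Ioo (D - δ) (D + δ)) + volume.real (Ioo (1 - δ) (1 + δ)) :=
        measureReal_union_le _ _
    _ ≤ volume.real (Ioo (-δ) δ) + volume.real (Ioo (D - δ) (D + δ)) +
        volume.real (Ioo (1 - δ) (1 + δ)) := by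
        have := measureReal_union_le (μ := volume) (Ioo (-δ) δ) (Ioo (D - δ) (D + δ))
        linarith
    _ = 6 * δ := by
        rw [Real.volume_real_Ioo_of_le (by linarith), Real.volume_real_Ioo_of_le (by linarith),
          Real.volume_real_Ioo_of_le (by linarith)]
        ring

lemma int_shift (f : ℝ → ℝ) (hf : Function.Periodic f 1) (c : ℝ) :
    ∫ θ in Ico (0 : ℝ) 1, f (θ + c) = ∫ θ in Ico (0 : ℝ) 1, f θ := by
  rw [integral_Ico_eq_integral_Ioc, integral_Ico_eq_integral_Ioc,
    ← intervalIntegral.integral_of_le zero_le_one, ← intervalIntegral.integral_of_le zero_le_one,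
    intervalIntegral.integral_comp_add_right (fun x => f x) c]
  have := hf.intervalIntegral_add_eq c 0
  rw [zero_add] at this
  rw [← this, zero_add, add_comm 1 c]

end Pool.Agent.H152R3.KD.WEYL
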